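import Pool.Agent.J4H12.PZ.Stm

set_option autoImplicit false

open MeasureTheory Set Filter Topology Metric
open scoped Pointwise RealInnerProductSpace ENNReal

namespace Pool.Agent.J4H10.PZ

open Pool.Agent.H638.IB Pool.Agent.J4H12.PZ

theorem t_V1 : S_V1 := by
  intro z x hz0 hz1 hx
  obtain ⟨a, ha⟩ : ∃ a, a = |x| := ⟨_, rfl⟩
  have ha0 : 0 < a := by rw [ha]; exact abs_pos.2 hx
  rw [← ha]
  have hfun : ∀ t ∈ Ioi (0:ℝ), t ^ (-2 - z) * max (t - a) 0 =
      (Ioi a).indicator (fun t : ℝ => t ^ (-1 - z) - a * t ^ (-2 - z)) t := by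
    intro t ht
    rw [mem_Ioi] at ht
    by_cases h : a < t
    · rw [indicator_of_mem (mem_Ioi.2 h), max_eq_left (by linarith)]
      have h1 : t ^ (-1 - z) = t ^ (-2 - z) * t := by
        rw [← Real.rpow_add_one ht.ne']
        congr 1
        ring
      rw [h1]
      ring
    · rw [indicator_of_notMem (by simpa using h), max_eq_right (by linarith), mul_zero]
  have hinter : Ioi (0:ℝ) ∩ Ioi a = Ioi a := by
    ext t
    simp only [mem_inter_iff, mem_Ioi]
    constructor
    · exact fun h => h.2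
    · exact fun h => ⟨ha0.trans h, h⟩
  have i1 : IntegrableOn (fun t : ℝ => t ^ (-1 - z)) (Ioi a) :=
    integrableOn_Ioi_rpow_of_lt (by linarith) ha0
  have i2 : IntegrableOn (fun t : ℝ => t ^ (-2 - z)) (Ioi a) :=
    integrableOn_Ioi_rpow_of_lt (by linarith) ha0
  have i3 : IntegrableOn (fun t : ℝ => t ^ (-1 - z) - a * t ^ (-2 - z)) (Ioi a) :=
    i1.sub (i2.const_mul a)
  constructor
  · rw [integrableOn_congr_fun hfun measurableSet_Ioi]
    exact (i3.integrable_indicator measurableSet_Ioi).integrableOn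
  · rw [setIntegral_congr_fun measurableSet_Ioi hfun, setIntegral_indicator measurableSet_Ioi,
      hinter, integral_sub i1 (i2.const_mul a), integral_const_mul,
      integral_Ioi_rpow_of_lt (by linarith) ha0, integral_Ioi_rpow_of_lt (by linarith) ha0]
    have e1 : (-1 - z + 1 : ℝ) = -z := by ring
    have e2 : (-2 - z + 1 : ℝ) = -z - 1 := by ring
    rw [e1, e2, Real.rpow_sub_one ha0.ne']
    have h1 : (-z - 1 : ℝ) ≠ 0 := by linarith
    have h2 : (1 + z : ℝ) ≠ 0 := by linarith
    field_simp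
    ring

end Pool.Agent.J4H10.PZ
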