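import Pool.Agent.J4H12.PZ.Stm

/-! PZ, V7: the orthogonality relation. -/

set_option autoImplicit false

open MeasureTheory Set Filter Topology Metric
open scoped Pointwise RealInnerProductSpace ENNReal

namespace Pool.Agent.J4H10.PZ

open Pool.Agent.H638.IB Pool.Agent.J4H12.PZ

/-- the sign -/
noncomputable def sg (x : ℝ) : ℝ := ((SignType.sign x : SignType) : ℝ)

theorem sg_meas : Measurable sg := by
  have h : sg = fun x => if 0 < x then 1 else if x < 0 then -1 else 0 := by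
    funext x
    unfold sg
    rw [sign_apply]
    split_ifs <;> simp
  rw [h]
  exact Measurable.ite measurableSet_Ioi measurable_const
    (Measurable.ite measurableSet_Iio measurable_const measurable_const)

theorem sg_abs (x : ℝ) : |sg x| ≤ 1 := by
  unfold sg
  rw [sign_apply]
  split_ifs <;> simp

/-- the linear form -/
def ll (p : ℝ) (y : ℝ × ℝ) : ℝ := y.1 + p * y.2

theorem ll_meas : Measurable (fun q : ℝ × (ℝ × ℝ) => ll q.1 q.2) := by
  unfold ll
  fun_prop

theorem ll_meas1 (p : ℝ) : Measurable (ll p) := by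
  unfold ll
  fun_prop

section
variable (M : Measure (ℝ × ℝ)) [IsFiniteMeasure M]

/-- the even part -/
noncomputable def EE (p t : ℝ) : ℝ := ∫ y, max (t - |ll p y|) 0 ∂M

/-- the odd part -/
noncomputable def FF (p t : ℝ) : ℝ := ∫ y, sg (ll p y) * max (t - |ll p y|) 0 ∂M

/-- the Mellin transform -/
noncomputable def HH (z p : ℝ) : ℝ := ∫ y, sg (ll p y) * |ll p y| ^ (-z) ∂M

theorem mx_int (p t : ℝ) : Integrable (fun y => max (t - |ll p y|) 0) M := by
  refine Integrable.of_bound (C := |t|) ?_ (Eventually.of_forall fun y => ?_)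
  · have := ll_meas1 p
    exact Measurable.aestronglyMeasurable (by fun_prop)
  · rw [Real.norm_eq_abs, abs_of_nonneg (le_max_right _ _)]
    exact max_le (by linarith [abs_nonneg (ll p y), le_abs_self t]) (abs_nonneg t)

theorem EE_le (p : ℝ) {t : ℝ} (ht : 0 ≤ t) : EE M p t ≤ t * M.real univ := by
  have h1 : EE M p t ≤ ∫ _y, t ∂M := by
    refine integral_mono (mx_int M p t) (integrable_const _) fun y => ?_
    exact max_le (by linarith [abs_nonneg (ll p y)]) ht
  rw [integral_const, smul_eq_mul] at h1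
  linarith

theorem EE_nonneg (p t : ℝ) : 0 ≤ EE M p t := integral_nonneg fun y => le_max_right _ _

theorem FF_le (p t : ℝ) : |FF M p t| ≤ EE M p t := by
  unfold FF EE
  rw [← Real.norm_eq_abs]
  refine norm_integral_le_of_norm_le (mx_int M p t) (Eventually.of_forall fun y => ?_)
  rw [norm_mul, Real.norm_eq_abs, Real.norm_eq_abs, abs_of_nonneg (le_max_right (t - |ll p y|) 0)]
  calc |sg (ll p y)| * max (t - |ll p y|) 0 ≤ 1 * max (t - |ll p y|) 0 :=
        mul_le_mul_of_nonneg_right (sg_abs _) (le_max_right _ _)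
    _ = _ := one_mul _

theorem EE_meas (p : ℝ) : Measurable (EE M p) := by
  have h : StronglyMeasurable (fun q : ℝ × (ℝ × ℝ) => max (q.1 - |ll p q.2|) 0) := by
    have := ll_meas1 p
    exact Measurable.stronglyMeasurable (by fun_prop)
  exact (h.integral_prod_right' (ν := M)).measurable

theorem FF_meas (p : ℝ) : Measurable (FF M p) := by
  have h : StronglyMeasurable
      (fun q : ℝ × (ℝ × ℝ) => sg (ll p q.2) * max (q.1 - |ll p q.2|) 0) := by
    have h1 := ll_meas1 p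
    have h2 := sg_meas
    exact Measurable.stronglyMeasurable (by fun_prop)
  exact (h.integral_prod_right' (ν := M)).measurable

/-- the bound for the Mellin integral of the even part -/
theorem mellin_bd {p C₀ δ₀ z : ℝ} (hC : 0 ≤ C₀) (hδ : 0 < δ₀) (hz : 1 / 2 ≤ z) (hz1 : z < 1)
    (hE : ∀ t : ℝ, 0 < t → t ≤ δ₀ → EE M p t ≤ C₀ * t ^ 2) :
    IntegrableOn (fun t : ℝ => t ^ (-2 - z) * EE M p t) (Ioi 0) ∧
    (1 - z) * ∫ t in Ioi (0 : ℝ), t ^ (-2 - z) * EE M p t ≤
      C₀ * (1 + δ₀) + 2 * (M.real univ * (1 + δ₀⁻¹)) := by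
  have hz0 : 0 < z := by linarith
  obtain ⟨m, hm⟩ : ∃ m, m = M.real univ := ⟨_, rfl⟩
  have hm0 : 0 ≤ m := by rw [hm]; exact measureReal_nonneg
  obtain ⟨g, hg⟩ : ∃ g : ℝ → ℝ, g = fun t => (Ioc 0 δ₀).indicator (fun t => C₀ * t ^ (-z)) t +
    (Ioi δ₀).indicator (fun t => m * t ^ (-1 - z)) t := ⟨_, rfl⟩
  have j1 : IntegrableOn (fun t : ℝ => C₀ * t ^ (-z)) (Ioc 0 δ₀) := by
    have h1 := (intervalIntegral.intervalIntegrable_rpow' (a := 0) (b := δ₀) (r := -z)
      (by linarith)).1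
    exact h1.const_mul C₀
  have j2 : IntegrableOn (fun t : ℝ => m * t ^ (-1 - z)) (Ioi δ₀) :=
    (integrableOn_Ioi_rpow_of_lt (by linarith) hδ).const_mul m
  have k1 : Integrable ((Ioc 0 δ₀).indicator fun t : ℝ => C₀ * t ^ (-z)) :=
    j1.integrable_indicator measurableSet_Ioc
  have k2 : Integrable ((Ioi δ₀).indicator fun t : ℝ => m * t ^ (-1 - z)) :=
    j2.integrable_indicator measurableSet_Ioi
  have hgi : IntegrableOn g (Ioi 0) := by
    rw [hg]
    exact (k1.add k2).integrableOn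
  have hle : ∀ t ∈ Ioi (0 : ℝ), t ^ (-2 - z) * EE M p t ≤ g t := by
    intro t ht
    rw [mem_Ioi] at ht
    rw [hg]
    simp only
    have hp0 : 0 ≤ t ^ (-2 - z) := Real.rpow_nonneg ht.le _
    by_cases h : t ≤ δ₀
    · rw [indicator_of_mem (mem_Ioc.2 ⟨ht, h⟩), indicator_of_notMem (by simpa using h), add_zero]
      have e1 : t ^ (-z) = t ^ (-2 - z) * t ^ 2 := by
        rw [← Real.rpow_natCast t 2, ← Real.rpow_add ht]
        congr 1
        push_cast
        ring
      rw [e1]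
      calc t ^ (-2 - z) * EE M p t ≤ t ^ (-2 - z) * (C₀ * t ^ 2) :=
            mul_le_mul_of_nonneg_left (hE t ht h) hp0
        _ = _ := by ring
    · rw [indicator_of_notMem (fun h' => h (mem_Ioc.1 h').2),
        indicator_of_mem (mem_Ioi.2 (not_le.1 h)), zero_add]
      have e1 : t ^ (-1 - z) = t ^ (-2 - z) * t := by
        rw [← Real.rpow_add_one ht.ne']
        congr 1
        ring
      rw [e1]
      calc t ^ (-2 - z) * EE M p t ≤ t ^ (-2 - z) * (t * M.real univ) :=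
            mul_le_mul_of_nonneg_left (EE_le M p ht.le) hp0
        _ = _ := by rw [hm]; ring
  have hmeas : AEStronglyMeasurable (fun t : ℝ => t ^ (-2 - z) * EE M p t)
      (volume.restrict (Ioi 0)) := by
    have h1 := EE_meas M p
    exact Measurable.aestronglyMeasurable (by fun_prop)
  have hint : IntegrableOn (fun t : ℝ => t ^ (-2 - z) * EE M p t) (Ioi 0) := by
    refine Integrable.mono' hgi hmeas ?_
    rw [ae_restrict_iff' measurableSet_Ioi]
    refine Eventually.of_forall fun t ht => ?_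
    rw [Real.norm_eq_abs, abs_of_nonneg (mul_nonneg (Real.rpow_nonneg (le_of_lt ht) _)
      (EE_nonneg M p t))]
    exact hle t ht
  refine ⟨hint, ?_⟩
  have h2 : ∫ t in Ioi (0 : ℝ), t ^ (-2 - z) * EE M p t ≤ ∫ t in Ioi (0 : ℝ), g t :=
    setIntegral_mono_on hint hgi measurableSet_Ioi hle
  have h3 : ∫ t in Ioi (0 : ℝ), g t = C₀ * (δ₀ ^ (1 - z) / (1 - z)) + m * (δ₀ ^ (-z) / z) := by
    rw [hg, integral_add k1.integrableOn k2.integrableOn, setIntegral_indicator measurableSet_Ioc,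
      setIntegral_indicator measurableSet_Ioi]
    have e1 : Ioi (0:ℝ) ∩ Ioc 0 δ₀ = Ioc 0 δ₀ := by
      ext t
      simp only [mem_inter_iff, mem_Ioi, mem_Ioc]
      tauto
    have e2 : Ioi (0:ℝ) ∩ Ioi δ₀ = Ioi δ₀ := by
      ext t
      simp only [mem_inter_iff, mem_Ioi]
      exact ⟨fun h => h.2, fun h => ⟨hδ.trans h, h⟩⟩
    rw [e1, e2, integral_const_mul, integral_const_mul,
      ← intervalIntegral.integral_of_le hδ.le, integral_rpow (Or.inl (by linarith)),
      integral_Ioi_rpow_of_lt (by linarith) hδ]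
    have e3 : (-z + 1 : ℝ) = 1 - z := by ring
    have e4 : (-1 - z + 1 : ℝ) = -z := by ring
    rw [e3, e4, Real.zero_rpow (by linarith), sub_zero, neg_div_neg_eq]
  rw [h3] at h2
  have hz2 : 0 < 1 - z := by linarith
  have b1 : δ₀ ^ (1 - z) ≤ 1 + δ₀ := by
    rcases le_total δ₀ 1 with h | h
    · have := Real.rpow_le_one hδ.le h hz2.le
      linarith
    · have := Real.rpow_le_rpow_of_exponent_le h (by linarith : 1 - z ≤ 1)
      rw [Real.rpow_one] at this
      linarith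
  have b2 : δ₀ ^ (-z) ≤ 1 + δ₀⁻¹ := by
    have hi : 0 < δ₀⁻¹ := inv_pos.2 hδ
    have e : δ₀ ^ (-z) = δ₀⁻¹ ^ z := by
      rw [Real.rpow_neg hδ.le, Real.inv_rpow hδ.le]
    rw [e]
    rcases le_total δ₀⁻¹ 1 with h | h
    · have := Real.rpow_le_one hi.le h hz0.le
      linarith
    · have := Real.rpow_le_rpow_of_exponent_le h hz1.le
      rw [Real.rpow_one] at this
      linarith
  have b3 : δ₀ ^ (-z) / z ≤ 2 * (1 + δ₀⁻¹) := by
    rw [div_le_iff₀ hz0]
    have hi : 0 < δ₀⁻¹ := inv_pos.2 hδ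
    nlinarith
  calc (1 - z) * ∫ t in Ioi (0 : ℝ), t ^ (-2 - z) * EE M p t ≤
      (1 - z) * (C₀ * (δ₀ ^ (1 - z) / (1 - z)) + m * (δ₀ ^ (-z) / z)) :=
        mul_le_mul_of_nonneg_left h2 hz2.le
    _ = C₀ * δ₀ ^ (1 - z) + (1 - z) * (m * (δ₀ ^ (-z) / z)) := by
        field_simp
    _ ≤ C₀ * (1 + δ₀) + 1 * (m * (2 * (1 + δ₀⁻¹))) := by
        refine add_le_add (mul_le_mul_of_nonneg_left b1 hC) ?_
        refine mul_le_mul (by linarith) (mul_le_mul_of_nonneg_left b3 hm0) ?_ zero_le_one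
        exact mul_nonneg hm0 (div_nonneg (Real.rpow_nonneg hδ.le _) hz0.le)
    _ = C₀ * (1 + δ₀) + 2 * (M.real univ * (1 + δ₀⁻¹)) := by rw [hm]; ring

/-- Fubini -/
theorem mellin_fub (hV1 : S_V1) {p z : ℝ} (hz0 : 0 < z) (hz1 : z < 1)
    (h0 : M {y | y.1 + p * y.2 = 0} = 0)
    (hint : IntegrableOn (fun t : ℝ => t ^ (-2 - z) * EE M p t) (Ioi 0)) :
    Integrable (fun y => |ll p y| ^ (-z)) M ∧
    (∫ y, |ll p y| ^ (-z) ∂M) = z * (1 + z) * ∫ t in Ioi (0 : ℝ), t ^ (-2 - z) * EE M p t ∧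
    HH M z p = z * (1 + z) * ∫ t in Ioi (0 : ℝ), t ^ (-2 - z) * FF M p t := by
  have hzz : 0 < z * (1 + z) := by positivity
  have hlm := ll_meas1 p
  have hsm := sg_meas
  have hae : ∀ᵐ y ∂M, ll p y ≠ 0 := by
    rw [ae_iff]
    simpa [ll] using h0
  obtain ⟨μ, hμ⟩ : ∃ μ : Measure ℝ, μ = volume.restrict (Ioi 0) := ⟨_, rfl⟩
  have hsf : SFinite μ := by rw [hμ]; infer_instance
  obtain ⟨Φ, hΦ⟩ : ∃ Φ : ℝ → ℝ × ℝ → ℝ, Φ = fun t y => t ^ (-2 - z) * max (t - |ll p y|) 0 :=
    ⟨_, rfl⟩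
  obtain ⟨Ψ, hΨ⟩ : ∃ Ψ : ℝ → ℝ × ℝ → ℝ,
      Ψ = fun t y => t ^ (-2 - z) * (sg (ll p y) * max (t - |ll p y|) 0) := ⟨_, rfl⟩
  have mΦ : AEStronglyMeasurable (Function.uncurry Φ) (μ.prod M) := by
    rw [hΦ]
    refine Measurable.aestronglyMeasurable ?_
    change Measurable fun q : ℝ × (ℝ × ℝ) => q.1 ^ (-2 - z) * max (q.1 - |ll p q.2|) 0
    fun_prop
  have mΨ : AEStronglyMeasurable (Function.uncurry Ψ) (μ.prod M) := by
    rw [hΨ]
    refine Measurable.aestronglyMeasurable ?_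
    change Measurable fun q : ℝ × (ℝ × ℝ) =>
      q.1 ^ (-2 - z) * (sg (ll p q.2) * max (q.1 - |ll p q.2|) 0)
    fun_prop
  have iΦ : Integrable (Function.uncurry Φ) (μ.prod M) := by
    rw [integrable_prod_iff mΦ]
    constructor
    · refine Eventually.of_forall fun t => ?_
      rw [hΦ]
      exact (mx_int M p t).const_mul (t ^ (-2 - z))
    · have e1 : ∀ t, (∫ y, ‖Function.uncurry Φ (t, y)‖ ∂M) = |t ^ (-2 - z)| * EE M p t := by
        intro t
        unfold EE
        rw [← integral_const_mul]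
        refine integral_congr_ae (Eventually.of_forall fun y => ?_)
        rw [hΦ]
        simp only [Function.uncurry]
        rw [norm_mul, Real.norm_eq_abs, Real.norm_eq_abs,
          abs_of_nonneg (le_max_right (t - |ll p y|) 0)]
      simp only [e1]
      rw [hμ]
      refine hint.congr ?_
      filter_upwards [ae_restrict_mem measurableSet_Ioi] with t ht
      rw [abs_of_nonneg (Real.rpow_nonneg (le_of_lt ht) _)]
  have iΨ : Integrable (Function.uncurry Ψ) (μ.prod M) := by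
    refine iΦ.mono mΨ (Eventually.of_forall fun q => ?_)
    rw [hΦ, hΨ]
    simp only [Function.uncurry]
    rw [norm_mul, norm_mul, norm_mul]
    refine mul_le_mul_of_nonneg_left ?_ (norm_nonneg _)
    calc ‖sg (ll p q.2)‖ * ‖max (q.1 - |ll p q.2|) 0‖ ≤ 1 * ‖max (q.1 - |ll p q.2|) 0‖ :=
          mul_le_mul_of_nonneg_right (sg_abs _) (norm_nonneg _)
      _ = _ := one_mul _
  have c1 : ∀ᵐ y ∂M, (∫ t, Φ t y ∂μ) = |ll p y| ^ (-z) / (z * (1 + z)) := by
    filter_upwards [hae] with y hy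
    rw [hμ, hΦ]
    exact (hV1 z (ll p y) hz0 hz1 hy).2
  have c2 : ∀ᵐ y ∂M, (∫ t, Ψ t y ∂μ) = sg (ll p y) * |ll p y| ^ (-z) / (z * (1 + z)) := by
    filter_upwards [hae] with y hy
    rw [hμ, hΨ]
    have h1 : (fun t : ℝ => t ^ (-2 - z) * (sg (ll p y) * max (t - |ll p y|) 0)) =
        fun t : ℝ => sg (ll p y) * (t ^ (-2 - z) * max (t - |ll p y|) 0) := by
      funext t
      ring
    simp only [h1]
    rw [integral_const_mul, (hV1 z (ll p y) hz0 hz1 hy).2]
    ring
  have d1 : Integrable (fun y => |ll p y| ^ (-z) / (z * (1 + z))) M :=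
    (iΦ.integral_prod_right).congr c1
  refine ⟨?_, ?_, ?_⟩
  · refine (d1.mul_const (z * (1 + z))).congr (Eventually.of_forall fun y => ?_)
    simp only
    field_simp
  · have h1 := integral_integral_swap iΦ
    have h2 : (∫ t, (∫ y, Φ t y ∂M) ∂μ) = ∫ t in Ioi (0 : ℝ), t ^ (-2 - z) * EE M p t := by
      rw [hμ]
      refine integral_congr_ae (Eventually.of_forall fun t => ?_)
      rw [hΦ]
      simp only
      unfold EE
      rw [integral_const_mul]
    rw [h2, integral_congr_ae c1, integral_div] at h1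
    rw [h1]
    field_simp
  · have h1 := integral_integral_swap iΨ
    have h2 : (∫ t, (∫ y, Ψ t y ∂M) ∂μ) = ∫ t in Ioi (0 : ℝ), t ^ (-2 - z) * FF M p t := by
      rw [hμ]
      refine integral_congr_ae (Eventually.of_forall fun t => ?_)
      rw [hΨ]
      simp only
      unfold FF
      rw [integral_const_mul]
    rw [h2, integral_congr_ae c2, integral_div] at h1
    rw [h1]
    unfold HH
    field_simp

/-- the limit for one `p` -/
theorem lim_p (hV1 : S_V1) (hV2 : S_V2) {p C₀ δ₀ j : ℝ} (h0 : M {y | y.1 + p * y.2 = 0} = 0)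
    (hC : 0 ≤ C₀) (hδ : 0 < δ₀) (hE : ∀ t : ℝ, 0 < t → t ≤ δ₀ → EE M p t ≤ C₀ * t ^ 2)
    (hj : Tendsto (fun t : ℝ => t⁻¹ ^ 2 * FF M p t) (𝓝[>] 0) (𝓝 j)) :
    Tendsto (fun z : ℝ => (1 - z) * HH M z p) (𝓝[<] 1) (𝓝 (2 * j)) := by
  obtain ⟨m, hm⟩ : ∃ m, m = M.real univ := ⟨_, rfl⟩
  have hm0 : 0 ≤ m := by rw [hm]; exact measureReal_nonneg
  have hfm : Measurable (fun t : ℝ => t⁻¹ ^ 2 * FF M p t) := by
    have := FF_meas M p
    fun_prop
  have h1 := hV2 (fun t : ℝ => t⁻¹ ^ 2 * FF M p t) (max C₀ m) δ₀ j hfm hδ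
    (fun t ht ht' => by
      rw [abs_mul, abs_of_nonneg (sq_nonneg t⁻¹)]
      have h2 := (FF_le M p t).trans (hE t ht ht')
      calc t⁻¹ ^ 2 * |FF M p t| ≤ t⁻¹ ^ 2 * (C₀ * t ^ 2) :=
            mul_le_mul_of_nonneg_left h2 (sq_nonneg _)
        _ = C₀ := by field_simp
        _ ≤ _ := le_max_left _ _)
    (fun t ht => by
      have ht0 : 0 < t := hδ.trans_le ht
      rw [abs_mul, abs_of_nonneg (sq_nonneg t⁻¹)]
      have h2 := (FF_le M p t).trans (EE_le M p ht0.le)
      rw [← hm] at h2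
      calc t⁻¹ ^ 2 * |FF M p t| ≤ t⁻¹ ^ 2 * (t * m) :=
            mul_le_mul_of_nonneg_left h2 (sq_nonneg _)
        _ = m / t := by field_simp
        _ ≤ _ := div_le_div_of_nonneg_right (le_max_right _ _) ht0.le) hj
  have h2 : Tendsto (fun z : ℝ => z * (1 + z)) (𝓝[<] 1) (𝓝 2) := by
    have h3 : Tendsto (fun z : ℝ => z * (1 + z)) (𝓝 1) (𝓝 (1 * (1 + 1))) :=
      (continuous_id.mul (continuous_const.add continuous_id)).tendsto 1
    rw [show (1 * (1 + 1) : ℝ) = 2 by norm_num] at h3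
    exact h3.mono_left nhdsWithin_le_nhds
  refine (h2.mul h1).congr' ?_
  filter_upwards [Ioo_mem_nhdsLT (show (1 / 2 : ℝ) < 1 by norm_num)] with z hz
  have hz0 : 0 < z := by linarith [hz.1]
  have h4 := (mellin_bd M hC hδ hz.1.le hz.2 hE).1
  have h5 := (mellin_fub M hV1 hz0 hz.2 h0 h4).2.2
  have h6 : ∫ t in Ioi (0 : ℝ), t ^ (-z) * (t⁻¹ ^ 2 * FF M p t) =
      ∫ t in Ioi (0 : ℝ), t ^ (-2 - z) * FF M p t := by
    refine setIntegral_congr_fun measurableSet_Ioi fun t ht => ?_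
    rw [mem_Ioi] at ht
    have e1 : t ^ (-2 - z) = t ^ (-z) * t⁻¹ ^ 2 := by
      rw [show (-2 - z : ℝ) = -z - (2 : ℕ) by push_cast; ring, Real.rpow_sub_natCast ht.ne',
        inv_pow, div_eq_mul_inv]
    rw [e1]
    ring
  rw [h6, h5]
  ring

theorem HH_meas (z : ℝ) : Measurable (HH M z) := by
  have h : StronglyMeasurable
      (fun q : ℝ × (ℝ × ℝ) => sg (ll q.1 q.2) * |ll q.1 q.2| ^ (-z)) := by
    have h1 := ll_meas
    have h2 := sg_meas
    refine Measurable.stronglyMeasurable ?_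
    exact (h2.comp h1).mul ((measurable_id.abs.comp h1).pow_const _)
  exact (h.integral_prod_right' (ν := M)).measurable

/-- the uniform bound -/
theorem HH_bd (hV1 : S_V1) {p C₀ δ₀ z : ℝ} (h0 : M {y | y.1 + p * y.2 = 0} = 0)
    (hC : 0 ≤ C₀) (hδ : 0 < δ₀) (hz : 1 / 2 ≤ z) (hz1 : z < 1)
    (hE : ∀ t : ℝ, 0 < t → t ≤ δ₀ → EE M p t ≤ C₀ * t ^ 2) :
    Integrable (fun y => |ll p y| ^ (-z)) M ∧
    (1 - z) * (∫ y, |ll p y| ^ (-z) ∂M) ≤
      2 * (C₀ * (1 + δ₀) + 2 * (M.real univ * (1 + δ₀⁻¹))) ∧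
    |HH M z p| ≤ ∫ y, |ll p y| ^ (-z) ∂M := by
  have hz0 : 0 < z := by linarith
  obtain ⟨h4, h5⟩ := mellin_bd M hC hδ hz hz1 hE
  obtain ⟨h6, h7, -⟩ := mellin_fub M hV1 hz0 hz1 h0 h4
  refine ⟨h6, ?_, ?_⟩
  · rw [h7]
    have h8 : 0 ≤ (1 - z) * ∫ t in Ioi (0 : ℝ), t ^ (-2 - z) * EE M p t := by
      refine mul_nonneg (by linarith) (setIntegral_nonneg measurableSet_Ioi fun t ht => ?_)
      exact mul_nonneg (Real.rpow_nonneg (le_of_lt ht) _) (EE_nonneg M p t)
    have h9 : z * (1 + z) ≤ 2 := by nlinarith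
    calc (1 - z) * (z * (1 + z) * ∫ t in Ioi (0 : ℝ), t ^ (-2 - z) * EE M p t) =
        z * (1 + z) * ((1 - z) * ∫ t in Ioi (0 : ℝ), t ^ (-2 - z) * EE M p t) := by ring
      _ ≤ 2 * ((1 - z) * ∫ t in Ioi (0 : ℝ), t ^ (-2 - z) * EE M p t) :=
        mul_le_mul_of_nonneg_right h9 h8
      _ ≤ _ := mul_le_mul_of_nonneg_left h5 (by norm_num)
  · unfold HH
    rw [← Real.norm_eq_abs]
    refine norm_integral_le_of_norm_le h6 (Eventually.of_forall fun y => ?_)
    rw [norm_mul, Real.norm_eq_abs, Real.norm_eq_abs,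
      abs_of_nonneg (Real.rpow_nonneg (abs_nonneg (ll p y)) _)]
    calc |sg (ll p y)| * |ll p y| ^ (-z) ≤ 1 * |ll p y| ^ (-z) :=
          mul_le_mul_of_nonneg_right (sg_abs _) (Real.rpow_nonneg (abs_nonneg _) _)
      _ = _ := one_mul _

end

theorem t_V7 (hV1 : S_V1) (hV2 : S_V2) (hV3 : S_V3) (hV4 : S_V4) (hV5 : S_V5) (hV6 : S_V6) :
    S_V7 := by
  intro M J hM hE hO hJ ψ hψ hi0 hi1 hi2
  obtain ⟨C₀', δ₀, hδ₀, hEb'⟩ := hE (tsupport ψ) hψ.supp hψ.zero hψ.one
  obtain ⟨C₀, hC₀⟩ : ∃ C₀, C₀ = max C₀' 0 := ⟨_, rfl⟩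
  have hC0 : 0 ≤ C₀ := by rw [hC₀]; exact le_max_right _ _
  have hEb : ∀ p ∈ tsupport ψ, ∀ t : ℝ, 0 < t → t ≤ δ₀ → EE M p t ≤ C₀ * t ^ 2 := by
    intro p hp t ht ht'
    refine (hEb' p hp t ht ht').trans (mul_le_mul_of_nonneg_right ?_ (sq_nonneg t))
    rw [hC₀]
    exact le_max_left _ _
  obtain ⟨hM0, hMp, C₆, hC₆⟩ := hV6 M hM hE
  have hp0 : ∀ p ∈ tsupport ψ, p ≠ 0 := fun p hp h => hψ.zero (h ▸ hp)
  have hp1 : ∀ p ∈ tsupport ψ, p ≠ -1 := fun p hp h => hψ.one (h ▸ hp)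
  have hnull : ∀ p ∈ tsupport ψ, M {y | y.1 + p * y.2 = 0} = 0 := fun p hp =>
    hMp p (hp0 p hp) (hp1 p hp)
  obtain ⟨K, hK⟩ : ∃ K, K = 2 * (C₀ * (1 + δ₀) + 2 * (M.real univ * (1 + δ₀⁻¹))) := ⟨_, rfl⟩
  have hbd := fun (p : ℝ) (hp : p ∈ tsupport ψ) (z : ℝ) (hz : 1 / 2 ≤ z) (hz1 : z < 1) =>
    HH_bd M hV1 (hnull p hp) hC0 hδ₀ hz hz1 (hEb p hp)
  rw [← hK] at hbd
  have hψc : Continuous ψ := hψ.smooth.continuous
  have hψi : Integrable ψ := hψc.integrable_of_hasCompactSupport hψ.supp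
  -- dominated convergence
  have lim1 : Tendsto (fun z : ℝ => ∫ p, ψ p * ((1 - z) * HH M z p)) (𝓝[<] 1)
      (𝓝 (∫ p, ψ p * (2 * J p))) := by
    refine tendsto_integral_filter_of_dominated_convergence (fun p => |ψ p| * K) ?_ ?_ ?_ ?_
    · refine Eventually.of_forall fun z => ?_
      have h1 := HH_meas M z
      have h2 := hψc.measurable
      exact Measurable.aestronglyMeasurable (by fun_prop)
    · filter_upwards [Ioo_mem_nhdsLT (show (1 / 2 : ℝ) < 1 by norm_num)] with z hz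
      refine Eventually.of_forall fun p => ?_
      rw [norm_mul, Real.norm_eq_abs, Real.norm_eq_abs]
      by_cases hp : p ∈ tsupport ψ
      · refine mul_le_mul_of_nonneg_left ?_ (abs_nonneg _)
        obtain ⟨-, h2, h3⟩ := hbd p hp z hz.1.le hz.2
        rw [abs_mul, abs_of_pos (by linarith [hz.2] : 0 < 1 - z)]
        exact (mul_le_mul_of_nonneg_left h3 (by linarith [hz.2])).trans h2
      · rw [image_eq_zero_of_notMem_tsupport hp, abs_zero, zero_mul, zero_mul]
    · exact hψi.norm.mul_const K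
    · refine Eventually.of_forall fun p => ?_
      by_cases hp : p ∈ tsupport ψ
      · refine Tendsto.const_mul _ ?_
        exact lim_p M hV1 hV2 (hnull p hp) hC0 hδ₀ (hEb p hp) (hO p (hp0 p hp) (hp1 p hp))
      · rw [image_eq_zero_of_notMem_tsupport hp]
        simp only [zero_mul]
        exact tendsto_const_nhds
  -- Fubini
  have hfub : ∀ z : ℝ, 1 / 2 ≤ z → z < 1 → (∫ p, ψ p * HH M z p) = ∫ y, KK ψ z y ∂M := by
    intro z hz hz1
    have mU : Measurable (fun q : ℝ × (ℝ × ℝ) => ψ q.1 * (sg (ll q.1 q.2) * |ll q.1 q.2| ^ (-z))) := by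
      have h1 := ll_meas
      have h2 := sg_meas
      exact (hψc.measurable.comp measurable_fst).mul
        ((h2.comp h1).mul ((measurable_id.abs.comp h1).pow_const _))
    have iU : Integrable (Function.uncurry fun (p : ℝ) (y : ℝ × ℝ) =>
        ψ p * (sg (ll p y) * |ll p y| ^ (-z))) (volume.prod M) := by
      have mU' : AEStronglyMeasurable (Function.uncurry fun (p : ℝ) (y : ℝ × ℝ) =>
        ψ p * (sg (ll p y) * |ll p y| ^ (-z))) (volume.prod M) := mU.aestronglyMeasurable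
      rw [integrable_prod_iff mU']
      have hpt : ∀ p, Integrable (fun y => ψ p * (sg (ll p y) * |ll p y| ^ (-z))) M := by
        intro p
        by_cases hp : p ∈ tsupport ψ
        · refine Integrable.const_mul ?_ _
          have h1 := ll_meas1 p
          have h2 := sg_meas
          refine (hbd p hp z hz hz1).1.mono
            (Measurable.aestronglyMeasurable (by fun_prop)) (Eventually.of_forall fun y => ?_)
          rw [norm_mul]
          calc ‖sg (ll p y)‖ * ‖|ll p y| ^ (-z)‖ ≤ 1 * ‖|ll p y| ^ (-z)‖ :=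
                mul_le_mul_of_nonneg_right (sg_abs _) (norm_nonneg _)
            _ = _ := one_mul _
        · rw [image_eq_zero_of_notMem_tsupport hp]
          simp
      refine ⟨Eventually.of_forall hpt, ?_⟩
      refine Integrable.mono' (g := fun p => |ψ p| * (K / (1 - z))) (hψi.norm.mul_const _) ?_ ?_
      · have h1 : StronglyMeasurable (fun q : ℝ × (ℝ × ℝ) =>
            ‖ψ q.1 * (sg (ll q.1 q.2) * |ll q.1 q.2| ^ (-z))‖) := mU.norm.stronglyMeasurable
        exact (h1.integral_prod_right' (ν := M)).aestronglyMeasurable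
      · refine Eventually.of_forall fun p => ?_
        rw [Real.norm_eq_abs, abs_of_nonneg (integral_nonneg fun y => norm_nonneg _)]
        simp only [Function.uncurry]
        by_cases hp : p ∈ tsupport ψ
        · obtain ⟨h2, h3, -⟩ := hbd p hp z hz hz1
          have h4 : (∫ y, ‖ψ p * (sg (ll p y) * |ll p y| ^ (-z))‖ ∂M) ≤
              ∫ y, |ψ p| * |ll p y| ^ (-z) ∂M := by
            refine integral_mono (hpt p).norm (h2.const_mul _) fun y => ?_
            simp only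
            rw [norm_mul, norm_mul, Real.norm_eq_abs, Real.norm_eq_abs, Real.norm_eq_abs,
              abs_of_nonneg (Real.rpow_nonneg (abs_nonneg (ll p y)) _)]
            refine mul_le_mul_of_nonneg_left ?_ (abs_nonneg _)
            calc |sg (ll p y)| * |ll p y| ^ (-z) ≤ 1 * |ll p y| ^ (-z) :=
                  mul_le_mul_of_nonneg_right (sg_abs _) (Real.rpow_nonneg (abs_nonneg _) _)
              _ = _ := one_mul _
          refine h4.trans ?_
          rw [integral_const_mul]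
          refine mul_le_mul_of_nonneg_left ?_ (abs_nonneg _)
          rw [le_div_iff₀ (by linarith)]
          linarith
        · rw [image_eq_zero_of_notMem_tsupport hp]
          simp
    have h1 := integral_integral_swap iU
    have h2 : (∫ p, ψ p * HH M z p) =
        ∫ p, (∫ y, ψ p * (sg (ll p y) * |ll p y| ^ (-z)) ∂M) := by
      refine integral_congr_ae (Eventually.of_forall fun p => ?_)
      simp only
      unfold HH
      rw [integral_const_mul]
    rw [h2, h1]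
    rfl
  -- the bound for the kernel
  obtain ⟨C, hC⟩ := hV3 ψ hψ
  have hle : ∀ ε : ℝ, 0 < ε → |∫ p, ψ p * (2 * J p)| ≤ ε * C₆ := by
    intro ε hε
    obtain ⟨η, hη0, hη1, hη⟩ := hV4 ψ hψ hi0 hi1 hi2 ε hε
    have hI := hV5 M hM hE η hη0 hη1
    obtain ⟨g, hg⟩ : ∃ g : ℝ × ℝ → ℝ, g = (Edge η)ᶜ.indicator fun y => 1 + ‖y‖⁻¹ := ⟨_, rfl⟩
    have hEm : MeasurableSet (Edge η) := by
      have e : Edge η = {y : ℝ × ℝ | |y.2| ≤ η * |y.1|} ∪
          ({y : ℝ × ℝ | |y.1| ≤ η * |y.2|} ∪ {y : ℝ × ℝ | |y.1 - y.2| ≤ η * |y.2|}) := rfl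
      have m1 : MeasurableSet {y : ℝ × ℝ | |y.2| ≤ η * |y.1|} :=
        (isClosed_le (by fun_prop) (by fun_prop)).measurableSet
      have m2 : MeasurableSet {y : ℝ × ℝ | |y.1| ≤ η * |y.2|} :=
        (isClosed_le (by fun_prop) (by fun_prop)).measurableSet
      have m3 : MeasurableSet {y : ℝ × ℝ | |y.1 - y.2| ≤ η * |y.2|} :=
        (isClosed_le (by fun_prop) (by fun_prop)).measurableSet
      rw [e]
      exact m1.union (m2.union m3)
    have hgi : Integrable g M := by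
      rw [hg, integrable_indicator_iff hEm.compl]
      exact (integrable_const (1:ℝ)).integrableOn.add hI
    have hbound : ∀ z : ℝ, 1 - η < z → 1 / 2 ≤ z → z < 1 →
        |(1 - z) * ∫ y, KK ψ z y ∂M| ≤ ε * C₆ + (1 - z) * (|C| * ∫ y, g y ∂M) := by
      intro z hz2 hz hz1
      obtain ⟨h2, h3⟩ := hC₆ z hz hz1
      have h4 : |∫ y, KK ψ z y ∂M| ≤ ∫ y, (ε * ‖y‖ ^ (-z) + |C| * g y) ∂M := by
        rw [← Real.norm_eq_abs]
        refine norm_integral_le_of_norm_le ((h2.const_mul ε).add (hgi.const_mul |C|)) ?_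
        have h0 : ∀ᵐ y ∂M, y ≠ 0 := by
          rw [ae_iff]
          simpa using hM0
        filter_upwards [h0] with y hy
        have hny : 0 < ‖y‖ := norm_pos_iff.2 hy
        have hr0 : 0 ≤ ‖y‖ ^ (-z) := Real.rpow_nonneg hny.le _
        rw [Real.norm_eq_abs]
        by_cases hyE : y ∈ Edge η
        · have h5 := hη z hz2 hz1 y hy hyE
          have h6 : g y = 0 := by
            rw [hg, indicator_of_notMem (show y ∉ (Edge η)ᶜ from fun h => h hyE)]
          rw [h6, mul_zero, add_zero]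
          exact h5
        · have h5 := hC z hz hz1 y hy
          have h6 : g y = 1 + ‖y‖⁻¹ := by
            rw [hg, indicator_of_mem (show y ∈ (Edge η)ᶜ from hyE)]
          rw [h6]
          have hi : 0 < ‖y‖⁻¹ := inv_pos.2 hny
          have h7 : ‖y‖ ^ (-z) ≤ 1 + ‖y‖⁻¹ := by
            have e : ‖y‖ ^ (-z) = ‖y‖⁻¹ ^ z := by
              rw [Real.rpow_neg hny.le, Real.inv_rpow hny.le]
            rw [e]
            rcases le_total ‖y‖⁻¹ 1 with h | h
            · have := Real.rpow_le_one hi.le h (by linarith : 0 ≤ z)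
              linarith
            · have := Real.rpow_le_rpow_of_exponent_le h hz1.le
              rw [Real.rpow_one] at this
              linarith
          calc |KK ψ z y| ≤ C * ‖y‖ ^ (-z) := h5
            _ ≤ |C| * ‖y‖ ^ (-z) := mul_le_mul_of_nonneg_right (le_abs_self C) hr0
            _ ≤ |C| * (1 + ‖y‖⁻¹) := mul_le_mul_of_nonneg_left h7 (abs_nonneg C)
            _ ≤ ε * ‖y‖ ^ (-z) + |C| * (1 + ‖y‖⁻¹) := by
              have := mul_nonneg hε.le hr0
              linarith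
      rw [integral_add (h2.const_mul ε) (hgi.const_mul |C|), integral_const_mul,
        integral_const_mul] at h4
      have hz3 : 0 < 1 - z := by linarith
      rw [abs_mul, abs_of_pos hz3]
      calc (1 - z) * |∫ y, KK ψ z y ∂M| ≤
          (1 - z) * (ε * (∫ y, ‖y‖ ^ (-z) ∂M) + |C| * ∫ y, g y ∂M) :=
            mul_le_mul_of_nonneg_left h4 hz3.le
        _ = ε * ((1 - z) * ∫ y, ‖y‖ ^ (-z) ∂M) + (1 - z) * (|C| * ∫ y, g y ∂M) := by ring
        _ ≤ ε * C₆ + (1 - z) * (|C| * ∫ y, g y ∂M) := by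
          have := mul_le_mul_of_nonneg_left h3 hε.le
          linarith
    have l1 : Tendsto (fun z : ℝ => |∫ p, ψ p * ((1 - z) * HH M z p)|) (𝓝[<] 1)
        (𝓝 |∫ p, ψ p * (2 * J p)|) := lim1.abs
    have l2 : Tendsto (fun z : ℝ => ε * C₆ + (1 - z) * (|C| * ∫ y, g y ∂M)) (𝓝[<] 1)
        (𝓝 (ε * C₆)) := by
      have h3 : Tendsto (fun z : ℝ => ε * C₆ + (1 - z) * (|C| * ∫ y, g y ∂M)) (𝓝 1)
          (𝓝 (ε * C₆ + (1 - 1) * (|C| * ∫ y, g y ∂M))) :=
        (continuous_const.add ((continuous_const.sub continuous_id).mul continuous_const)).tendsto 1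
      rw [sub_self, zero_mul, add_zero] at h3
      exact h3.mono_left nhdsWithin_le_nhds
    refine le_of_tendsto_of_tendsto l1 l2 ?_
    have hmx : max (1 - η) (1 / 2) < 1 := max_lt (by linarith) (by norm_num)
    filter_upwards [Ioo_mem_nhdsLT hmx] with z hz
    have hz2 : 1 - η < z := (le_max_left _ _).trans_lt hz.1
    have hz3 : 1 / 2 ≤ z := ((le_max_right _ _).trans_lt hz.1).le
    have h5 := hbound z hz2 hz3 hz.2
    rw [← hfub z hz3 hz.2, ← integral_const_mul] at h5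
    have h6 : (fun p => ψ p * ((1 - z) * HH M z p)) = fun p => (1 - z) * (ψ p * HH M z p) := by
      funext p
      ring
    rw [h6]
    exact h5
  have hC6 : 0 ≤ C₆ := by
    have h1 := (hC₆ (1 / 2) le_rfl (by norm_num)).2
    refine le_trans ?_ h1
    exact mul_nonneg (by norm_num) (integral_nonneg fun y => Real.rpow_nonneg (norm_nonneg _) _)
  have hfin : |∫ p, ψ p * (2 * J p)| ≤ 0 := by
    refine le_of_forall_pos_le_add fun e he => ?_
    have h1 := hle (e / (C₆ + 1)) (by positivity)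
    refine h1.trans ?_
    rw [zero_add, div_mul_eq_mul_div, div_le_iff₀ (by positivity)]
    nlinarith
  have h1 : (∫ p, ψ p * (2 * J p)) = 0 := abs_nonpos_iff.1 hfin
  have h2 : (fun p => ψ p * (2 * J p)) = fun p => 2 * (ψ p * J p) := by
    funext p
    ring
  rw [h2, integral_const_mul] at h1
  exact (mul_eq_zero.1 h1).resolve_left two_ne_zero

end Pool.Agent.J4H10.PZ
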